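import Pool.Agent.H51.MFQ.S1

/-!
# Board mfq: adapted bases exist
-/

set_option autoImplicit false

open Module

namespace Pool.MFQ

theorem t_bas : BASStmt := by
  intro 𝔤 _ _ _ V
  obtain ⟨W, hW⟩ := Submodule.exists_isCompl V.toSubmodule
  refine ⟨_, _, ((finBasis ℂ V.toSubmodule).prod (finBasis ℂ W)).map
    (Submodule.prodEquivOfIsCompl V.toSubmodule W hW), ?_, ?_⟩
  · intro l
    rw [Basis.map_apply, Submodule.coe_prodEquivOfIsCompl', Basis.prod_apply_inl_fst,
      Basis.prod_apply_inl_snd, Submodule.coe_zero, add_zero]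
    exact (finBasis ℂ V.toSubmodule l).2
  · intro x hx i
    rw [Basis.map_repr, LinearEquiv.trans_apply, Basis.prod_repr_inr,
      (Submodule.prodEquivOfIsCompl_symm_apply_snd_eq_zero V.toSubmodule W hW).2 hx, map_zero,
      Finsupp.zero_apply]

end Pool.MFQ
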