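import Pool.Agent.H51.MFQ.S1

/-!
# Board mfq: the final statement
-/

set_option autoImplicit false

open Module

namespace Pool.MFQ

theorem t_top (h1 : MainStmt) (h2 : METStmt) (h3 : SPLStmt) (h4 : NI2Stmt) (h5 : TAKStmt)
    (h6 : GENStmt) : TopStmt := by
  refine ⟨h1, ?_, ?_, ?_, ?_⟩
  · intro 𝔤 _ _ _ hm
    obtain ⟨V, hV⟩ : ∃ V : LieIdeal ℂ 𝔤, V = ⁅(⊤ : LieIdeal ℂ 𝔤), (⊤ : LieIdeal ℂ 𝔤)⁆ := ⟨_, rfl⟩
    have hmem : ∀ x y : 𝔤, ⁅x, y⁆ ∈ V := fun x y => by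
      rw [hV]
      exact LieSubmodule.lie_mem_lie (LieSubmodule.mem_top x) (LieSubmodule.mem_top y)
    have hspan : V.toSubmodule = Submodule.span ℂ {m | ∃ x y : 𝔤, ⁅x, y⁆ = m} := by
      rw [hV, LieSubmodule.lieIdeal_oper_eq_linear_span']
      simp
    have hone : ∀ p q : 𝔤, ∀ y ∈ V, ⁅⁅p, q⁆, y⁆ = 0 := by
      intro p q y hy
      have hy' : y ∈ V.toSubmodule := hy
      rw [hspan] at hy'
      induction hy' using Submodule.span_induction with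
      | mem y hy0 =>
        obtain ⟨r, s, rfl⟩ := hy0
        exact hm p q r s
      | zero => exact lie_zero _
      | add y z hy1 hz1 h5 h6 =>
        rw [← hspan] at hy1 hz1
        rw [lie_add, h5 hy1, h6 hz1, add_zero]
      | smul c y hy1 h5 =>
        rw [← hspan] at hy1
        rw [lie_smul, h5 hy1, smul_zero]
    have hab : IsAb V := by
      intro x hx y hy
      have hx' : x ∈ V.toSubmodule := hx
      rw [hspan] at hx'
      induction hx' using Submodule.span_induction with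
      | mem x hx0 =>
        obtain ⟨p, q, rfl⟩ := hx0
        exact hone p q y hy
      | zero => exact zero_lie _
      | add x z hx1 hz1 h5 h6 =>
        rw [← hspan] at hx1 hz1
        rw [add_lie, h5 hx1, h6 hz1, add_zero]
      | smul c x hx1 h5 =>
        rw [← hspan] at hx1
        rw [smul_lie, h5 hx1, smul_zero]
    obtain ⟨Δ, hΔ, h7, h8⟩ := h6 𝔤 V
    exact ⟨Δ, hΔ, h7, fun a ha => h1 𝔤 V hab (h2 𝔤 V hab hmem) a (h8 a ha)⟩
  · intro 𝔤 _ _ _ V H hV hH hHV a ha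
    obtain ⟨h7, h8⟩ := h3 𝔤 V H hV hH hHV
    exact h1 𝔤 V hV h7 a (h8 a ha)
  · intro 𝔤 _ _ _ hn a ha
    obtain ⟨V, hV, h7, h8⟩ := h4 𝔤 hn
    exact h1 𝔤 V hV h7 a (h8 a ha)
  · intro 𝔤 _ _ _ K V ε hT a ha
    obtain ⟨h7, h8⟩ := h5 𝔤 K V ε hT
    exact h1 𝔤 V hT.1 h7 a (h8 a ha)

end Pool.MFQ
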